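import Pool.Agent.LPR.Stmts

/-! # Squad LPR (MP_005a41_gt), row DJU: disjoint locally finite unions -/

set_option autoImplicit false

open Set Topology
open scoped BigOperators

namespace Pool.Agent.LPR.H69

open Pool.Agent.LSG Pool.Agent.LPR

theorem piece_cont {Y I : Type} [TopologicalSpace Y] (O : I → Set Y) (hO : ∀ i, IsOpen (O i))
    (hd : ∀ i j, i ≠ j → Disjoint (O i) (O j)) (f : Y → ℝ) (hf : Continuous f)
    (hf0 : ∀ y, y ∉ ⋃ i, O i → f y = 0) (j : I) [DecidablePred fun y => y ∈ O j] :
    Continuous fun y => if y ∈ O j then f y else 0 := by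
  rw [continuous_iff_continuousAt]
  intro y0
  by_cases h1 : y0 ∈ O j
  · refine (hf.continuousAt (x := y0)).congr ?_
    filter_upwards [(hO j).mem_nhds h1] with y hy
    rw [if_pos hy]
  · by_cases h2 : y0 ∈ ⋃ i, O i
    · obtain ⟨l, hl⟩ := Set.mem_iUnion.1 h2
      have hlj : l ≠ j := by
        rintro rfl
        exact h1 hl
      refine (continuousAt_const (x := y0) (y := (0 : ℝ))).congr ?_
      filter_upwards [(hO l).mem_nhds hl] with y hy
      rw [if_neg]
      exact fun h => Set.disjoint_left.1 (hd l j hlj) hy h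
    · have h3 : f y0 = 0 := hf0 y0 h2
      rw [ContinuousAt, if_neg h1]
      refine squeeze_zero_norm (a := fun y => |f y|) (fun y => ?_) ?_
      · by_cases hy : y ∈ O j
        · rw [if_pos hy, Real.norm_eq_abs]
        · rw [if_neg hy, norm_zero]
          exact abs_nonneg _
      · have h4 : Filter.Tendsto (fun y => |f y|) (𝓝 y0) (𝓝 |f y0|) :=
          (continuous_abs.comp hf).continuousAt
        rw [h3, abs_zero] at h4
        exact h4

/-- gluing of continuous linear maps along a disjoint locally finite family -/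
theorem glue {Y I E : Type} [TopologicalSpace Y] [AddCommGroup E] [Module ℝ E]
    [TopologicalSpace E] (O : I → Set Y)
    (hd : ∀ i j, i ≠ j → Disjoint (O i) (O j)) (hl : LocallyFinite O)
    (T : I → E →L[ℝ] (Y → ℝ)) (hT : ∀ i e, Continuous (T i e))
    (hT0 : ∀ i e y, y ∉ O i → T i e y = 0) :
    ∃ G : E →L[ℝ] (Y → ℝ), (∀ e, Continuous (G e)) ∧ (∀ i e, ∀ y ∈ O i, G e y = T i e y) ∧
      ∀ e y, y ∉ (⋃ i, O i) → G e y = 0 := by
  classical
  have hone : ∀ i e, ∀ y ∈ O i, (∑ᶠ j, T j e y) = T i e y := by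
    intro i e y hy
    refine finsum_eq_single _ i fun j hj => ?_
    exact hT0 j e y fun h => Set.disjoint_left.1 (hd j i hj) h hy
  have hzero : ∀ e y, y ∉ (⋃ i, O i) → (∑ᶠ j, T j e y) = 0 := by
    intro e y hy
    have h1 : ∀ j, T j e y = 0 := fun j => hT0 j e y fun h => hy (Set.mem_iUnion.2 ⟨j, h⟩)
    rw [finsum_congr h1, finsum_zero]
  let G0 : E →ₗ[ℝ] (Y → ℝ) :=
    { toFun := fun e y => ∑ᶠ j, T j e y
      map_add' := by
        intro e e'
        funext y
        change (∑ᶠ j, T j (e + e') y) = (∑ᶠ j, T j e y) + ∑ᶠ j, T j e' y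
        by_cases hy : y ∈ ⋃ i, O i
        · obtain ⟨i, hi⟩ := Set.mem_iUnion.1 hy
          rw [hone i _ y hi, hone i _ y hi, hone i _ y hi, map_add]
          rfl
        · rw [hzero _ y hy, hzero _ y hy, hzero _ y hy, add_zero]
      map_smul' := by
        intro c e
        funext y
        change (∑ᶠ j, T j (c • e) y) = c • ∑ᶠ j, T j e y
        by_cases hy : y ∈ ⋃ i, O i
        · obtain ⟨i, hi⟩ := Set.mem_iUnion.1 hy
          rw [hone i _ y hi, hone i _ y hi, map_smul]
          rfl
        · rw [hzero _ y hy, hzero _ y hy, smul_zero] }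
  refine ⟨⟨G0, ?_⟩, ?_, hone, hzero⟩
  · change Continuous fun e => (fun y => ∑ᶠ j, T j e y : Y → ℝ)
    rw [continuous_pi_iff]
    intro y
    by_cases hy : y ∈ ⋃ i, O i
    · obtain ⟨i, hi⟩ := Set.mem_iUnion.1 hy
      have h1 : (fun e => ∑ᶠ j, T j e y) = fun e => T i e y := funext fun e => hone i e y hi
      rw [h1]
      exact (continuous_apply y).comp (T i).continuous
    · have h1 : (fun e => ∑ᶠ j, T j e y) = fun _ => (0 : ℝ) := funext fun e => hzero e y hy
      rw [h1]
      exact continuous_const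
  · intro e
    change Continuous fun y => ∑ᶠ j, T j e y
    refine continuous_finsum (fun j => hT j e) (hl.subset fun j y hy => ?_)
    by_contra h
    exact hy (hT0 j e y h)

theorem dju : DjuStmt := by
  classical
  intro X I _ O hO hd hl hS
  choose ι π hιπ using hS
  -- the sets in the product
  let O' : I → Set (X × OnePoint ℕ) := fun i => {q | q.1 ∈ O i}
  have hO' : ∀ i, IsOpen (O' i) := fun i => (hO i).preimage continuous_fst
  have hd' : ∀ i j, i ≠ j → Disjoint (O' i) (O' j) := fun i j hij =>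
    Set.disjoint_left.2 fun q h1 h2 => Set.disjoint_left.1 (hd i j hij) h1 h2
  have hl' : LocallyFinite O' := hl.preimage_continuous continuous_fst
  have hU' : ∀ q : X × OnePoint ℕ, q ∉ (⋃ i, O' i) ↔ q.1 ∉ ⋃ i, O i := by
    intro q
    simp [O']
  -- restrictions
  have hr1 : ∀ (F : ↥(Sg (⋃ i, O i))) (j : I),
      (fun q : X × OnePoint ℕ => if q ∈ O' j then F.1 q else 0) ∈ Sg (O j) := by
    intro F j
    obtain ⟨h1, h2, h3⟩ := F.2
    refine ⟨piece_cont O' hO' hd' F.1 h1 (fun q hq => h2 q.1 ((hU' q).1 hq) q.2) j, ?_, ?_⟩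
    · intro x hx n
      exact if_neg hx
    · intro x
      change (if (x, OnePoint.infty) ∈ O' j then F.1 (x, OnePoint.infty) else 0) = 0
      rw [h3, ite_self]
  let r1 : ∀ j, ↥(Sg (⋃ i, O i)) →L[ℝ] ↥(Sg (O j)) := fun j =>
    { toFun := fun F => ⟨_, hr1 F j⟩
      map_add' := by
        intro F G
        apply Subtype.ext
        funext q
        change (if q ∈ O' j then F.1 q + G.1 q else 0) =
          (if q ∈ O' j then F.1 q else 0) + (if q ∈ O' j then G.1 q else 0)
        split_ifs <;> simp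
      map_smul' := by
        intro c F
        apply Subtype.ext
        funext q
        change (if q ∈ O' j then c • F.1 q else 0) = c • (if q ∈ O' j then F.1 q else 0)
        split_ifs <;> simp
      cont := by
        refine Continuous.subtype_mk (continuous_pi fun q => ?_) _
        by_cases hq : q ∈ O' j
        · simp only [if_pos hq]
          exact (continuous_apply q).comp continuous_subtype_val
        · simp only [if_neg hq]
          exact continuous_const }
  have hr2 : ∀ (f : ↥(Fo (⋃ i, O i))) (j : I),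
      (fun x : X => if x ∈ O j then f.1 x else 0) ∈ Fo (O j) := by
    intro f j
    obtain ⟨h1, h2⟩ := f.2
    exact ⟨piece_cont O hO hd f.1 h1 h2 j, fun x hx => if_neg hx⟩
  let r2 : ∀ j, ↥(Fo (⋃ i, O i)) →L[ℝ] ↥(Fo (O j)) := fun j =>
    { toFun := fun f => ⟨_, hr2 f j⟩
      map_add' := by
        intro F G
        apply Subtype.ext
        funext q
        change (if q ∈ O j then F.1 q + G.1 q else 0) =
          (if q ∈ O j then F.1 q else 0) + (if q ∈ O j then G.1 q else 0)
        split_ifs <;> simp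
      map_smul' := by
        intro c F
        apply Subtype.ext
        funext q
        change (if q ∈ O j then c • F.1 q else 0) = c • (if q ∈ O j then F.1 q else 0)
        split_ifs <;> simp
      cont := by
        refine Continuous.subtype_mk (continuous_pi fun q => ?_) _
        by_cases hq : q ∈ O j
        · simp only [if_pos hq]
          exact (continuous_apply q).comp continuous_subtype_val
        · simp only [if_neg hq]
          exact continuous_const }
  -- gluing
  obtain ⟨A, hAc, hA1, hA0⟩ := glue O hd hl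
    (fun j => (Submodule.subtypeL (Fo (O j))).comp ((ι j).comp (r1 j)))
    (fun j F => (ι j (r1 j F)).2.1) (fun j F x hx => (ι j (r1 j F)).2.2 x hx)
  obtain ⟨B, hBc, hB1, hB0⟩ := glue O' hd' hl'
    (fun j => (Submodule.subtypeL (Sg (O j))).comp ((π j).comp (r2 j)))
    (fun j f => (π j (r2 j f)).2.1) (fun j f q hq => (π j (r2 j f)).2.2.1 q.1 hq q.2)
  have hBi : ∀ (f : ↥(Fo (⋃ i, O i))) (x : X), B f (x, OnePoint.infty) = 0 := by
    intro f x
    by_cases hx : (x, OnePoint.infty) ∈ ⋃ i, O' i
    · obtain ⟨i, hi⟩ := Set.mem_iUnion.1 hx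
      rw [hB1 i f _ hi]
      exact (π i (r2 i f)).2.2.2 x
    · exact hB0 f _ hx
  refine ⟨A.codRestrict (Fo (⋃ i, O i)) fun F => ⟨hAc F, fun x hx => hA0 F x hx⟩,
    B.codRestrict (Sg (⋃ i, O i)) fun f =>
      ⟨hBc f, fun x hx n => hB0 f (x, n) ((hU' (x, n)).2 hx), hBi f⟩, ?_⟩
  intro F
  apply Subtype.ext
  funext q
  change B _ q = F.1 q
  by_cases hq : q ∈ ⋃ i, O' i
  · obtain ⟨i, hi⟩ := Set.mem_iUnion.1 hq
    rw [hB1 i _ q hi]
    have h1 : r2 i (A.codRestrict (Fo (⋃ i, O i)) (fun F => ⟨hAc F, fun x hx => hA0 F x hx⟩) F) =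
        ι i (r1 i F) := by
      apply Subtype.ext
      funext x
      change (if x ∈ O i then A F x else 0) = (ι i (r1 i F)).1 x
      by_cases hx : x ∈ O i
      · rw [if_pos hx, hA1 i F x hx]
        rfl
      · rw [if_neg hx, (ι i (r1 i F)).2.2 x hx]
    change (π i (r2 i (A.codRestrict (Fo (⋃ i, O i)) (fun F => ⟨hAc F, fun x hx => hA0 F x hx⟩) F))).1
      q = F.1 q
    rw [h1, hιπ]
    change (if q ∈ O' i then F.1 q else 0) = F.1 q
    rw [if_pos hi]
  · rw [hB0 _ q hq]
    exact (F.2.2.1 q.1 ((hU' q).1 hq) q.2).symm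

end Pool.Agent.LPR.H69
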