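import Pool.Agent.LPR.Stmts

/-! # Squad LPR (MP_005a41_gt), row CLO: l-embedded sets are closed -/

set_option autoImplicit false

open Set Topology

namespace Pool.Agent.LPR.H69

open Pool.Agent.LSG Pool.Agent.LPR

theorem clo : CloStmt := by
  intro X _ _ A hA
  let _ : MetricSpace X := TopologicalSpace.metrizableSpaceMetric X
  obtain ⟨φ, -, hφ⟩ := hA
  refine isClosed_of_closure_subset fun x hx => ?_
  by_contra hxA
  have hne : ∀ a : A, dist (a : X) x ≠ 0 := fun a h => hxA (dist_eq_zero.1 h ▸ a.2)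
  let f : C(A, ℝ) := ⟨fun a => (dist (a : X) x)⁻¹,
    (continuous_subtype_val.dist continuous_const).inv₀ hne⟩
  have h1 : Filter.Tendsto (fun y : X => φ f y * dist y x) (𝓝[A] x) (𝓝 (φ f x * dist x x)) :=
    ((φ f).continuous.mul (continuous_id.dist continuous_const)).continuousAt.continuousWithinAt
  have h2 : ∀ᶠ y in 𝓝[A] x, φ f y * dist y x = 1 := by
    filter_upwards [self_mem_nhdsWithin] with y hy
    have h3 : φ f y = (dist y x)⁻¹ := hφ f ⟨y, hy⟩
    rw [h3]
    exact inv_mul_cancel₀ (hne ⟨y, hy⟩)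
  have : (𝓝[A] x).NeBot := mem_closure_iff_nhdsWithin_neBot.1 hx
  have h3 := tendsto_nhds_unique (h1.congr' h2) tendsto_const_nhds
  rw [dist_self, mul_zero] at h3
  exact zero_ne_one h3

end Pool.Agent.LPR.H69
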