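import Pool.Agent.LPR.Stmts

/-! # Squad LPR (MP_005a41_gt), row FLO: flow boxes -/

set_option autoImplicit false

open Set Topology MeasureTheory

namespace Pool.Agent.LPR.H69

open Pool.Agent.LSG Pool.Agent.LPR

theorem flo : FloStmt := by
  classical
  intro X _ _ φ hφ h0 hadd p hp
  let _ : MetricSpace X := TopologicalSpace.metrizableSpaceMetric X
  obtain ⟨τ, hτ0, hτ⟩ : ∃ τ : ℝ, 0 < τ ∧ φ τ p ≠ p := by
    obtain ⟨t, ht⟩ := hp
    rcases lt_trichotomy t 0 with h | h | h
    · refine ⟨-t, by linarith, fun hc => ht ?_⟩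
      have h1 := hadd t (-t) p
      rw [add_neg_cancel, h0, hc] at h1
      exact h1.symm
    · exact absurd (by rw [h, h0]) ht
    · exact ⟨t, h, ht⟩
  have hD : 0 < dist (φ τ p) p := dist_pos.2 hτ
  let f : X → ℝ := fun x => dist x p / dist (φ τ p) p
  have hf : Continuous f := (continuous_id.dist continuous_const).div_const _
  have hf0 : f p = 0 := by
    change dist p p / _ = 0
    rw [dist_self, zero_div]
  have hf1 : f (φ τ p) = 1 := div_self hD.ne'
  have hH : Continuous (fun q : X × ℝ => f (φ q.2 q.1)) :=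
    hf.comp (hφ.comp (continuous_snd.prodMk continuous_fst))
  let F : X → ℝ := fun x => ∫ u in (0 : ℝ)..τ, f (φ u x)
  have hF : Continuous F :=
    intervalIntegral.continuous_parametric_intervalIntegral_of_continuous'
      (f := fun x u => f (φ u x)) hH 0 τ
  have hHx : ∀ x, Continuous fun u : ℝ => f (φ u x) := fun x =>
    hH.comp (continuous_const.prodMk continuous_id)
  have hcomm : ∀ s t x, φ s (φ t x) = φ (s + t) x := fun s t x => (hadd s t x).symm
  -- the value of `F` along an orbit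
  have hFo : ∀ (t : ℝ) (x : X), F (φ t x) = ∫ u in t..(t + τ), f (φ u x) := by
    intro t x
    change (∫ u in (0 : ℝ)..τ, f (φ u (φ t x))) = _
    have h1 : (fun u : ℝ => f (φ u (φ t x))) = fun u : ℝ => (fun v => f (φ v x)) (u + t) := by
      funext u
      rw [hcomm]
    rw [h1, intervalIntegral.integral_comp_add_right (fun v => f (φ v x)) t, zero_add, add_comm τ t]
  have hkey0 : ∀ (x : X) (t t' : ℝ), t ≤ t' →
      (∀ u ∈ Icc t t', 1 / 2 ≤ f (φ (u + τ) x) - f (φ u x)) →
      (t' - t) / 2 ≤ F (φ t' x) - F (φ t x) := by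
    intro x t t' htt hg
    rw [hFo, hFo]
    have hI : ∀ a b : ℝ, IntervalIntegrable (fun u => f (φ u x)) volume a b := fun a b =>
      (hHx x).intervalIntegrable a b
    have e1 := intervalIntegral.integral_add_adjacent_intervals (hI t (t + τ)) (hI (t + τ) (t' + τ))
    have e2 := intervalIntegral.integral_add_adjacent_intervals (hI t t') (hI t' (t' + τ))
    have e3 : (∫ u in (t + τ)..(t' + τ), f (φ u x)) = ∫ u in t..t', f (φ (u + τ) x) :=
      (intervalIntegral.integral_comp_add_right (fun v => f (φ v x)) τ).symm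
    have hI2 : IntervalIntegrable (fun u => f (φ (u + τ) x)) volume t t' :=
      ((hHx x).comp (continuous_id.add continuous_const)).intervalIntegrable t t'
    have e4 : (∫ u in t'..(t' + τ), f (φ u x)) - (∫ u in t..(t + τ), f (φ u x)) =
        ∫ u in t..t', (f (φ (u + τ) x) - f (φ u x)) := by
      rw [intervalIntegral.integral_sub hI2 (hI t t')]
      linarith
    rw [e4]
    have e5 : (t' - t) / 2 = ∫ _ in t..t', (1 / 2 : ℝ) := by
      rw [intervalIntegral.integral_const, smul_eq_mul]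
      ring
    rw [e5]
    exact intervalIntegral.integral_mono_on htt intervalIntegrable_const (hI2.sub (hI t t')) hg
  -- the neighbourhood
  have hgc : Continuous fun q : ℝ × X => f (φ (q.1 + τ) q.2) - f (φ q.1 q.2) :=
    (hf.comp (hφ.comp ((continuous_fst.add continuous_const).prodMk continuous_snd))).sub
      (hf.comp hφ)
  have hopen : IsOpen {q : ℝ × X | 1 / 2 < f (φ (q.1 + τ) q.2) - f (φ q.1 q.2)} :=
    isOpen_lt continuous_const hgc
  obtain ⟨U, W, hU, hW, hU0, hWp, hUW⟩ := isOpen_prod_iff.1 hopen 0 p (by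
    change 1 / 2 < f (φ (0 + τ) p) - f (φ 0 p)
    rw [zero_add, h0, hf1, hf0]
    norm_num)
  obtain ⟨r, hr, hrU⟩ := Metric.isOpen_iff.1 hU 0 hU0
  obtain ⟨δ, hδ, hδr⟩ : ∃ δ : ℝ, 0 < δ ∧ 2 * δ < r := ⟨r / 3, by linarith, by linarith⟩
  have hkey : ∀ x ∈ W, ∀ t t' : ℝ, -(2 * δ) ≤ t → t ≤ t' → t' ≤ 2 * δ →
      (t' - t) / 2 ≤ F (φ t' x) - F (φ t x) := by
    intro x hx t t' h1 h2 h3
    refine hkey0 x t t' h2 fun u hu => ?_
    have hu' : u ∈ U := by
      apply hrU
      rw [Metric.mem_ball, Real.dist_eq, sub_zero, abs_lt]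
      constructor
      · linarith [hu.1]
      · linarith [hu.2]
    have h4 : (u, x) ∈ {q : ℝ × X | 1 / 2 < f (φ (q.1 + τ) q.2) - f (φ q.1 q.2)} :=
      hUW (Set.mk_mem_prod hu' hx)
    exact le_of_lt h4
  have hkey2 : ∀ x ∈ W, ∀ s : ℝ, |s| ≤ 2 * δ → |s| ≤ 2 * |F (φ s x) - F x| := by
    intro x hx s hs
    obtain ⟨h1, h2⟩ := abs_le.1 hs
    rcases le_total 0 s with h | h
    · have h3 := hkey x hx 0 s (by linarith) h h2
      rw [h0] at h3
      have h4 := le_abs_self (F (φ s x) - F x)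
      rw [abs_of_nonneg h]
      linarith
    · have h3 := hkey x hx s 0 h1 h (by linarith)
      rw [h0] at h3
      have h4 := neg_le_abs (F (φ s x) - F x)
      rw [abs_of_nonpos h]
      linarith
  let S : Set X := {x | x ∈ W ∧ F x = F p}
  let N : Set X := {y | ∃ t ∈ Icc (-δ) δ, φ t y ∈ S}
  have huniq : ∀ y : X, ∀ t ∈ Icc (-δ) δ, ∀ t' ∈ Icc (-δ) δ, φ t y ∈ S → φ t' y ∈ S → t = t' := by
    intro y t ht t' ht' hx hx'
    have h1 : φ t' y = φ (t' - t) (φ t y) := by rw [hcomm, sub_add_cancel]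
    have h2 := hkey2 (φ t y) hx.1 (t' - t) (abs_le.2 ⟨by linarith [ht.2, ht'.1],
      by linarith [ht.1, ht'.2]⟩)
    rw [← h1, hx'.2, hx.2, sub_self, abs_zero, mul_zero] at h2
    have h3 : t' - t = 0 := abs_eq_zero.1 (le_antisymm h2 (abs_nonneg _))
    linarith
  have hT : ∀ y : N, ∃ t : ℝ, t ∈ Icc (-δ) δ ∧ φ t (y : X) ∈ S := fun y => y.2
  choose T hT1 hT2 using hT
  have hTc : Continuous T := by
    rw [continuous_iff_continuousAt]
    intro y0
    have hc : Continuous fun y : N => F (φ (T y0) (y : X)) :=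
      hF.comp (hφ.comp (continuous_const.prodMk continuous_subtype_val))
    have hbd : ∀ y : N, dist (T y) (T y0) ≤
        2 * |F (φ (T y0) (y : X)) - F (φ (T y0) (y0 : X))| := by
      intro y
      have h1 : φ (T y0) (y : X) = φ (T y0 - T y) (φ (T y) (y : X)) := by
        rw [hcomm, sub_add_cancel]
      have h2 := hkey2 _ (hT2 y).1 (T y0 - T y) (abs_le.2 ⟨by linarith [(hT1 y).2, (hT1 y0).1],
        by linarith [(hT1 y).1, (hT1 y0).2]⟩)
      rw [← h1, (hT2 y).2] at h2
      rw [(hT2 y0).2, dist_comm, Real.dist_eq]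
      exact h2
    rw [ContinuousAt, tendsto_iff_dist_tendsto_zero]
    refine squeeze_zero (fun _ => dist_nonneg) hbd ?_
    have h3 : Filter.Tendsto (fun y : N => 2 * |F (φ (T y0) (y : X)) - F (φ (T y0) (y0 : X))|)
        (𝓝 y0) (𝓝 (2 * |F (φ (T y0) (y0 : X)) - F (φ (T y0) (y0 : X))|)) :=
      ((continuous_const.mul ((hc.sub continuous_const).abs)).continuousAt)
    rw [sub_self, abs_zero, mul_zero] at h3
    exact h3
  have hN : N ∈ 𝓝 p := by
    have hop2 : IsOpen {q : ℝ × X | φ q.1 q.2 ∈ W} := hW.preimage hφ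
    obtain ⟨U', V, hU', hV, hU0', hVp, hUV⟩ := isOpen_prod_iff.1 hop2 0 p (by
      change φ 0 p ∈ W
      rw [h0]
      exact hWp)
    obtain ⟨ε, hε, hεU⟩ := Metric.isOpen_iff.1 hU' 0 hU0'
    have hm : 0 < min ε δ / 2 := by positivity
    have hFn : {y : X | dist (F y) (F p) < min ε δ / 2} ∈ 𝓝 p :=
      hF.continuousAt.eventually (Metric.ball_mem_nhds _ hm)
    filter_upwards [hFn, hV.mem_nhds hVp, hW.mem_nhds hWp] with y hy1 hy2 hy3
    rw [Real.dist_eq] at hy1
    have hε1 := min_le_left ε δ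
    have hδ1 := min_le_right ε δ
    have ha := hkey y hy3 0 δ (by linarith) hδ.le (by linarith)
    have hb := hkey y hy3 (-δ) 0 (by linarith) (by linarith) (by linarith)
    rw [h0] at ha hb
    obtain ⟨hy1a, hy1b⟩ := abs_lt.1 hy1
    have hcont : ContinuousOn (fun s : ℝ => F (φ s y)) (Icc (-δ) δ) :=
      (hF.comp (hφ.comp (continuous_id.prodMk continuous_const))).continuousOn
    obtain ⟨s, hs, hsF⟩ := intermediate_value_Icc (by linarith : -δ ≤ δ) hcont
      (show F p ∈ Icc (F (φ (-δ) y)) (F (φ δ y)) from ⟨by linarith, by linarith⟩)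
    refine ⟨s, hs, ?_, hsF⟩
    have h4 := hkey2 y hy3 s (abs_le.2 ⟨by linarith [hs.1], by linarith [hs.2]⟩)
    have h5 : F (φ s y) = F p := hsF
    rw [h5, abs_sub_comm] at h4
    have h6 : s ∈ U' := by
      apply hεU
      rw [Metric.mem_ball, Real.dist_eq, sub_zero]
      linarith
    have h7 : (s, y) ∈ {q : ℝ × X | φ q.1 q.2 ∈ W} := hUV (Set.mk_mem_prod h6 hy2)
    exact h7
  have hinv : ∀ (t : ℝ) (x : X), φ t (φ (-t) x) = x := by
    intro t x
    rw [hcomm, add_neg_cancel, h0]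
  have hinv2 : ∀ (t : ℝ) (x : X), φ (-t) (φ t x) = x := by
    intro t x
    rw [hcomm, neg_add_cancel, h0]
  have hb : ∀ q : S × Icc (-δ) δ, φ (-(q.2 : ℝ)) (q.1 : X) ∈ N := fun q =>
    ⟨q.2, q.2.2, by rw [hinv]; exact q.1.2⟩
  let e : N ≃ₜ S × Icc (-δ) δ :=
    { toFun := fun y => (⟨φ (T y) (y : X), hT2 y⟩, ⟨T y, hT1 y⟩)
      invFun := fun q => ⟨φ (-(q.2 : ℝ)) (q.1 : X), hb q⟩
      left_inv := fun y => Subtype.ext (hinv2 (T y) (y : X))
      right_inv := fun q => by
        have h1 : T ⟨φ (-(q.2 : ℝ)) (q.1 : X), hb q⟩ = (q.2 : ℝ) :=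
          huniq _ _ (hT1 _) _ q.2.2 (hT2 _) (by rw [hinv]; exact q.1.2)
        refine Prod.ext (Subtype.ext ?_) (Subtype.ext h1)
        change φ (T ⟨φ (-(q.2 : ℝ)) (q.1 : X), hb q⟩) (φ (-(q.2 : ℝ)) (q.1 : X)) = _
        rw [h1, hinv]
      continuous_toFun :=
        (Continuous.subtype_mk (hφ.comp (hTc.prodMk continuous_subtype_val)) _).prodMk
          (Continuous.subtype_mk hTc _)
      continuous_invFun := Continuous.subtype_mk (hφ.comp
        ((continuous_subtype_val.comp continuous_snd).neg.prodMk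
          (continuous_subtype_val.comp continuous_fst))) _ }
  exact ⟨N, hN, S, ⟨e.trans ((Homeomorph.refl _).prodCongr
    (iccHomeoI (-δ) δ (by linarith)))⟩⟩

end Pool.Agent.LPR.H69
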